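import Pool.Agent.W78.EG.Defs
import Pool.Agent.W45.GA.Lat

/-!
# EG-REGX: the sums over pairs vary slowly, port of `Pool.Agent.W108.EX.Regx`
-/

set_option autoImplicit false

namespace Pool.Agent.W632.EG

open Finset
open Pool.Agent.W78.GA
open Pool.Agent.W78.EG (pp AG S_REGX)

variable {t c : ℤ}

/-- the norm as a real quadratic form -/
lemma nmR (hD : t ^ 2 < 4 * c) (z : Qd t c) :
    (nm z : ℝ) = (z.re : ℝ) ^ 2 + t * z.re * z.im + c * (z.im : ℝ) ^ 2 := by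
  have h := nm_cast hD z
  have : ((nm z : ℤ) : ℝ) = ((z.re ^ 2 + t * z.re * z.im + c * z.im ^ 2 : ℤ) : ℝ) := by rw [h]
  push_cast at this
  exact this

lemma form_nonneg (hD : t ^ 2 < 4 * c) (a b : ℝ) : 0 ≤ a ^ 2 + t * a * b + c * b ^ 2 := by
  have h : (t : ℝ) ^ 2 < 4 * c := by exact_mod_cast hD
  have e : 4 * (a ^ 2 + t * a * b + c * b ^ 2) = (2 * a + t * b) ^ 2 + (4 * c - t ^ 2) * b ^ 2 := by ring
  have h2 : 0 ≤ (4 * (c : ℝ) - t ^ 2) * b ^ 2 := mul_nonneg (by linarith) (sq_nonneg _)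
  nlinarith [sq_nonneg (2 * a + t * b)]

lemma line {w u : Qd t c} (hw : prim w) (h : dt w u = 0) :
    ∃ k : ℤ, u.re = k * w.re ∧ u.im = k * w.im := by
  have h1 : IsCoprime w.re w.im := Int.isCoprime_iff_gcd_eq_one.2 hw
  obtain ⟨p, q, hpq⟩ := h1
  unfold dt at h
  refine ⟨p * u.re + q * u.im, ?_, ?_⟩
  · linear_combination (-u.re) * hpq + q * (-1) * h
  · linear_combination (-u.im) * hpq + p * h

theorem ln (hD : t ^ 2 < 4 * c) : ∀ s : ℝ, 0 < s → ∃ C : ℕ, ∀ (X : ℝ) (w : Qd t c) (m : ℤ), 1 ≤ X →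
    prim w → s * X < (nm w : ℝ) → ((ball t c (4 * X)).filter (fun z => dt w z = m)).card ≤ C := by
  intro s hs
  refine ⟨2 * ⌊16 / s⌋₊ + 1, ?_⟩
  intro X w m hX hw hsw
  set F := (ball t c (4 * X)).filter (fun z : Qd t c => dt w z = m) with hF
  set T : ℕ := ⌊16 / s⌋₊ with hT
  rcases F.eq_empty_or_nonempty with h0 | ⟨z₀, hz₀⟩
  · rw [h0, card_empty]
    exact Nat.zero_le _
  have hmem : ∀ z ∈ F, (nm z : ℝ) ≤ 4 * X ∧ dt w z = m := by
    intro z hz
    rw [hF, mem_filter, mem_ball hD] at hz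
    exact ⟨hz.1.2, hz.2⟩
  have hsub : F ⊆ (Icc (-(T : ℤ)) T).image
      (fun k => (⟨z₀.re + k * w.re, z₀.im + k * w.im⟩ : Qd t c)) := by
    intro z hz
    obtain ⟨n0, d0⟩ := hmem z₀ hz₀
    obtain ⟨n1, d1⟩ := hmem z hz
    have hd : dt w (⟨z.re - z₀.re, z.im - z₀.im⟩ : Qd t c) = 0 := by
      have : dt w (⟨z.re - z₀.re, z.im - z₀.im⟩ : Qd t c) = dt w z - dt w z₀ := by
        unfold dt; ring
      rw [this, d0, d1, sub_self]
    obtain ⟨k, hk1, hk2⟩ := line hw hd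
    simp only at hk1 hk2
    rw [mem_image]
    refine ⟨k, ?_, ?_⟩
    · have hk1R : (z.re : ℝ) - z₀.re = k * w.re := by exact_mod_cast hk1
      have hk2R : (z.im : ℝ) - z₀.im = k * w.im := by exact_mod_cast hk2
      have e1 := nmR hD z
      have e2 := nmR hD z₀
      have e3 := nmR hD w
      have hle : (k : ℝ) ^ 2 * nm w ≤ 16 * X := by
        have h1 : (k : ℝ) ^ 2 * nm w = ((z.re : ℝ) - z₀.re) ^ 2 +
            t * ((z.re : ℝ) - z₀.re) * ((z.im : ℝ) - z₀.im) + c * ((z.im : ℝ) - z₀.im) ^ 2 := by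
          rw [hk1R, hk2R, e3]; ring
        have h2 := form_nonneg hD ((z.re : ℝ) + z₀.re) ((z.im : ℝ) + z₀.im)
        have h3 : ((z.re : ℝ) - z₀.re) ^ 2 +
            t * ((z.re : ℝ) - z₀.re) * ((z.im : ℝ) - z₀.im) + c * ((z.im : ℝ) - z₀.im) ^ 2 +
            (((z.re : ℝ) + z₀.re) ^ 2 +
            t * ((z.re : ℝ) + z₀.re) * ((z.im : ℝ) + z₀.im) + c * ((z.im : ℝ) + z₀.im) ^ 2) =
            2 * (nm z : ℝ) + 2 * (nm z₀ : ℝ) := by
          rw [e1, e2]; ring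
        linarith
      have hk2s : (k : ℝ) ^ 2 ≤ 16 / s := by
        rw [le_div_iff₀ hs]
        have h1 : (k : ℝ) ^ 2 * (s * X) ≤ (k : ℝ) ^ 2 * nm w :=
          mul_le_mul_of_nonneg_left hsw.le (sq_nonneg _)
        have hX0 : 0 < X := by linarith
        refine le_of_mul_le_mul_right ?_ hX0
        linarith
      have hkabs : ((k.natAbs : ℕ) : ℝ) ≤ 16 / s := by
        have h1 : (k.natAbs : ℝ) ≤ (k.natAbs : ℝ) ^ 2 := by
          rcases Nat.eq_zero_or_pos k.natAbs with h | h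
          · rw [h]; norm_num
          · have : (1 : ℝ) ≤ k.natAbs := by exact_mod_cast h
            nlinarith
        have h2 : (k.natAbs : ℝ) ^ 2 = (k : ℝ) ^ 2 := by
          rw [Nat.cast_natAbs, Int.cast_abs, sq_abs]
        linarith
      have hn : k.natAbs ≤ T := Nat.le_floor hkabs
      rw [mem_Icc]
      omega
    · refine QuadraticAlgebra.ext ?_ ?_
      · show z₀.re + k * w.re = z.re
        linarith
      · show z₀.im + k * w.im = z.im
        linarith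
  refine (card_le_card hsub).trans (card_image_le.trans ?_)
  rw [Int.card_Icc]
  omega

/-- number of lattice points in balls -/
lemma cntb (hD : t ^ 2 < 4 * c) : ∃ K C : ℝ, 0 < K ∧ 0 < C ∧ ∀ X : ℝ, 1 ≤ X →
    |((ball t c X).card : ℝ) - K * X| ≤ C * Real.sqrt X := by
  obtain ⟨C, hC, h, -⟩ := Pool.Agent.W45.GA.lat hD
  refine ⟨kap t c, C, ?_, hC, fun X hX => ?_⟩
  · unfold kap
    have h4 : (0 : ℝ) < 4 * (c : ℝ) - (t : ℝ) ^ 2 := disc_pos hD
    have := Real.sqrt_pos.2 h4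
    have := Real.pi_pos
    positivity
  · have := h X 1 0 hX le_rfl
    rwa [filter_true_of_mem (fun z _ => by unfold lat; simp), Nat.cast_one, div_one] at this

/-- primitive elements with norm in a window -/
noncomputable def thin (t c : ℤ) (a b : ℝ) : Finset (Qd t c) := (pball t c b).filter (fun z => a < (nm z : ℝ))

lemma mem_thin (hD : t ^ 2 < 4 * c) {a b : ℝ} {z : Qd t c} : z ∈ thin t c a b ↔ (prim z ∧ (nm z : ℝ) ≤ b) ∧ a < (nm z : ℝ) := by
  unfold thin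
  rw [mem_filter, mem_pball hD]

lemma thin_card (hD : t ^ 2 < 4 * c) : ∃ C : ℝ, 0 < C ∧ ∀ s : ℝ, 0 < s → s ≤ 1 → ∀ δ : ℝ, 0 < δ → δ ≤ 1 → ∃ X₀ : ℝ,
    ∀ X X' : ℝ, X₀ ≤ X → X ≤ X' → X' ≤ (1 + δ) * X →
      ((thin t c (s * X) (s * X')).card : ℝ) ≤ C * δ * X := by
  obtain ⟨K, C, hK, hC, h⟩ := cntb hD
  refine ⟨K + 1, by positivity, ?_⟩
  intro s hs hs1 δ hδ hδ1
  refine ⟨max (1 / s) (8 * C ^ 2 / δ ^ 2), ?_⟩
  intro X X' hX hXX hX'
  have hX1 : 1 / s ≤ X := (le_max_left _ _).trans hX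
  have hX2 : 8 * C ^ 2 / δ ^ 2 ≤ X := (le_max_right _ _).trans hX
  have hsX : 1 ≤ s * X := by
    rw [div_le_iff₀ hs] at hX1
    linarith
  have hX0 : 0 < X := by
    by_contra hneg
    push Not at hneg
    nlinarith
  have hsX' : s * X ≤ s * X' := by gcongr
  have hsub : thin t c (s * X) (s * X') ⊆ ball t c (s * X') \ ball t c (s * X) := by
    intro z hz
    rw [mem_thin hD] at hz
    rw [mem_sdiff, mem_ball hD, mem_ball hD]
    refine ⟨⟨?_, hz.1.2⟩, fun h => absurd h.2 (not_le.2 hz.2)⟩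
    have : (1 : ℝ) < nm z := hsX.trans_lt hz.2
    exact_mod_cast this.le
  have hsub2 : (ball t c (s * X) : Finset (Qd t c)) ⊆ ball t c (s * X') := by
    intro z hz
    rw [mem_ball hD] at hz ⊢
    exact ⟨hz.1, hz.2.trans hsX'⟩
  have hcard : ((thin t c (s * X) (s * X')).card : ℝ) ≤
      ((ball t c (s * X') : Finset (Qd t c)).card : ℝ) - ((ball t c (s * X) : Finset (Qd t c)).card : ℝ) := by
    have h1 := card_le_card hsub
    have h2 := card_sdiff_add_card_eq_card hsub2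
    have h3 : ((ball t c (s * X') \ ball t c (s * X) : Finset (Qd t c)).card : ℝ) +
        ((ball t c (s * X) : Finset (Qd t c)).card : ℝ) = ((ball t c (s * X') : Finset (Qd t c)).card : ℝ) := by
      exact_mod_cast h2
    have h4 : ((thin t c (s * X) (s * X')).card : ℝ) ≤
        ((ball t c (s * X') \ ball t c (s * X) : Finset (Qd t c)).card : ℝ) := by exact_mod_cast h1
    linarith
  have e1 := abs_le.1 (h (s * X) hsX)
  have e2 := abs_le.1 (h (s * X') (hsX.trans hsX'))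
  have hX'0 : 0 ≤ X' := hX0.le.trans hXX
  have h2X : X' ≤ 2 * X := by nlinarith
  have r1 : Real.sqrt (s * X) ≤ Real.sqrt (2 * X) := Real.sqrt_le_sqrt (by nlinarith)
  have r2 : Real.sqrt (s * X') ≤ Real.sqrt (2 * X) := Real.sqrt_le_sqrt (by nlinarith)
  have r3 : Real.sqrt (2 * X) ≤ δ * X / (2 * C) := by
    rw [Real.sqrt_le_left (by positivity), div_pow, le_div_iff₀ (by positivity)]
    rw [div_le_iff₀ (by positivity)] at hX2
    nlinarith
  have r4 : 2 * C * Real.sqrt (2 * X) ≤ δ * X := by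
    rw [le_div_iff₀ (by positivity)] at r3
    linarith
  have r5 : C * Real.sqrt (s * X) ≤ C * Real.sqrt (2 * X) := by gcongr
  have r6 : C * Real.sqrt (s * X') ≤ C * Real.sqrt (2 * X) := by gcongr
  have r7 : K * (s * X') - K * (s * X) ≤ K * (δ * X) := by
    have : s * (X' - X) ≤ 1 * (δ * X) := by
      apply mul_le_mul hs1 (by linarith) (by linarith) (by norm_num)
    nlinarith
  calc ((thin t c (s * X) (s * X')).card : ℝ) ≤ K * (δ * X) + δ * X := by linarith [e1.1, e2.2]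
    _ = (K + 1) * δ * X := by ring

/-- pairs of determinant one whose first entry lies in a given set -/
noncomputable def P1 (T : Finset (Qd t c)) (X : ℝ) : Finset (Qd t c × Qd t c) :=
  (T ×ˢ ball t c (4 * X)).filter (fun e => dt e.1 e.2 = 1)

/-- pairs of determinant one whose second entry lies in a given set -/
noncomputable def P2 (T : Finset (Qd t c)) (X : ℝ) : Finset (Qd t c × Qd t c) :=
  (ball t c (4 * X) ×ˢ T).filter (fun e => dt e.1 e.2 = 1)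

lemma pairs (hD : t ^ 2 < 4 * c) (s : ℝ) (hs : 0 < s) : ∃ C : ℕ, ∀ X : ℝ, 1 ≤ X → ∀ T : Finset (Qd t c),
    (∀ z ∈ T, prim z ∧ s * X < (nm z : ℝ)) →
      (P1 T X).card ≤ C * T.card ∧ (P2 T X).card ≤ C * T.card := by
  obtain ⟨C, hC⟩ := ln hD s hs
  refine ⟨C, fun X hX T hT => ⟨?_, ?_⟩⟩
  · refine card_le_mul_card_image_of_maps_to (f := Prod.fst) (t := T) ?_ C ?_
    · intro e he
      unfold P1 at he
      rw [mem_filter, mem_product] at he
      exact he.1.1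
    · intro v hv
      refine le_trans ?_ (hC X v 1 hX (hT v hv).1 (hT v hv).2)
      refine card_le_card_of_injOn Prod.snd ?_ ?_
      · intro e he
        unfold P1 at he
        rw [mem_coe, mem_filter, mem_filter, mem_product] at he
        rw [mem_coe, mem_filter]
        obtain ⟨⟨⟨-, h2⟩, h3⟩, h4⟩ := he
        refine ⟨h2, ?_⟩
        rw [← h4]
        exact h3
      · intro e he e' he' hee
        rw [mem_coe, mem_filter] at he he'
        exact Prod.ext (he.2.trans he'.2.symm) hee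
  · refine card_le_mul_card_image_of_maps_to (f := Prod.snd) (t := T) ?_ C ?_
    · intro e he
      unfold P2 at he
      rw [mem_filter, mem_product] at he
      exact he.1.2
    · intro v hv
      refine le_trans ?_ (hC X v (-1) hX (hT v hv).1 (hT v hv).2)
      refine card_le_card_of_injOn Prod.fst ?_ ?_
      · intro e he
        unfold P2 at he
        rw [mem_coe, mem_filter, mem_filter, mem_product] at he
        rw [mem_coe, mem_filter]
        obtain ⟨⟨⟨h1, -⟩, h3⟩, h4⟩ := he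
        refine ⟨h1, ?_⟩
        rw [← h4]
        unfold dt at h3 ⊢
        linarith
      · intro e he e' he' hee
        rw [mem_coe, mem_filter] at he he'
        exact Prod.ext hee (he.2.trans he'.2.symm)

/-- the pairs in the windows -/
noncomputable def FF (t c : ℤ) (s₁ s₂ s₃ s₄ X : ℝ) : Finset (Qd t c × Qd t c) := by
  classical
  exact (dedge t c X).filter (fun e => 0 < pp e.1 e.2 ∧ s₁ * X < (nm e.1 : ℝ) ∧
    (nm e.1 : ℝ) ≤ s₂ * X ∧ s₃ * X < (nm e.2 : ℝ) ∧ (nm e.2 : ℝ) ≤ s₄ * X)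

lemma mem_FF (hD : t ^ 2 < 4 * c) {s₁ s₂ s₃ s₄ X : ℝ} {e : Qd t c × Qd t c} : e ∈ FF t c s₁ s₂ s₃ s₄ X ↔
    (((prim e.1 ∧ (nm e.1 : ℝ) ≤ X) ∧ (prim e.2 ∧ (nm e.2 : ℝ) ≤ X)) ∧ dt e.1 e.2 = 1) ∧
      0 < pp e.1 e.2 ∧ s₁ * X < (nm e.1 : ℝ) ∧
    (nm e.1 : ℝ) ≤ s₂ * X ∧ s₃ * X < (nm e.2 : ℝ) ∧ (nm e.2 : ℝ) ≤ s₄ * X := by
  classical
  unfold FF dedge
  rw [mem_filter, mem_filter, mem_product, mem_pball hD, mem_pball hD]

lemma AG_eq (g : Qd t c × Qd t c → ℂ) (s₁ s₂ s₃ s₄ X : ℝ) :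
    AG g s₁ s₂ s₃ s₄ X = ∑ e ∈ FF t c s₁ s₂ s₃ s₄ X, g e := by
  unfold AG FF
  rfl

lemma nsl {g : Qd t c × Qd t c → ℂ} (hg : ∀ e, ‖g e‖ ≤ 1) (S : Finset (Qd t c × Qd t c)) :
    ‖∑ e ∈ S, g e‖ ≤ (S.card : ℝ) := by
  refine (norm_sum_le _ _).trans ?_
  refine (sum_le_sum fun e _ => hg e).trans ?_
  rw [sum_const, nsmul_eq_mul, mul_one]

lemma one_le_nm {s X : ℝ} {z : Qd t c} (hs : 0 < s * X) (h : s * X < (nm z : ℝ)) : 1 ≤ nm z := by
  have : (0 : ℝ) < nm z := hs.trans h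
  exact_mod_cast this

theorem regx (hD : t ^ 2 < 4 * c) : S_REGX t c := by
  intro g hg s₁ s₂ s₃ s₄ h1 h12 h2 h3 h34 h4
  obtain ⟨s, hs, hs1, hs2, hs3, hs4⟩ : ∃ s : ℝ, 0 < s ∧ s ≤ s₁ ∧ s ≤ s₂ ∧ s ≤ s₃ ∧ s ≤ s₄ :=
    ⟨min s₁ s₃, lt_min h1 h3, min_le_left _ _, (min_le_left _ _).trans h12.le, min_le_right _ _,
      (min_le_right _ _).trans h34.le⟩
  obtain ⟨K, C₀, hK, hC₀, hcnt⟩ := cntb hD
  obtain ⟨C₁, hC₁, hthin⟩ := thin_card hD
  obtain ⟨C₂, hpair⟩ := pairs hD s hs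
  refine ⟨C₂ * (K + C₀) + 4 * (C₂ * C₁) + 1, by positivity, ?_, ?_⟩
  · intro X hX
    rw [AG_eq]
    refine (nsl hg _).trans ?_
    rcases lt_or_ge X 1 with hX1 | hX1
    · have : FF t c s₁ s₂ s₃ s₄ X = ∅ := by
        rw [eq_empty_iff_forall_notMem]
        intro e he
        rw [mem_FF hD] at he
        have h5 : 1 ≤ nm e.1 := one_le_nm (by positivity) he.2.2.1
        have h6 : (1 : ℝ) ≤ nm e.1 := by exact_mod_cast h5
        linarith [he.1.1.1.2]
      rw [this, card_empty, Nat.cast_zero]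
      positivity
    · obtain ⟨T, hT⟩ : ∃ T : Finset (Qd t c), T = thin t c (s * X) X := ⟨_, rfl⟩
      have hsub : FF t c s₁ s₂ s₃ s₄ X ⊆ P1 T X := by
        intro e he
        rw [mem_FF hD] at he
        obtain ⟨⟨⟨⟨a1, a2⟩, a3, a4⟩, a5⟩, a6, a7, a8, a9, a10⟩ := he
        unfold P1
        rw [mem_filter, mem_product, mem_ball hD, hT, mem_thin hD]
        refine ⟨⟨⟨⟨a1, a2⟩, ?_⟩, one_le_nm (by positivity) a9, by linarith⟩, a5⟩
        exact lt_of_le_of_lt (by gcongr) a7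
      have hp := (hpair X hX1 T (fun z hz => by
        rw [hT, mem_thin hD] at hz
        exact ⟨hz.1.1, hz.2⟩)).1
      have hTb : T ⊆ ball t c X := by
        intro z hz
        rw [hT, mem_thin hD] at hz
        rw [mem_ball hD]
        exact ⟨one_le_nm (by positivity) hz.2, hz.1.2⟩
      have hb := (abs_le.1 (hcnt X hX1)).2
      have hsq : Real.sqrt X ≤ X := by
        rw [Real.sqrt_le_left (by linarith)]
        nlinarith
      have c1 : ((FF t c s₁ s₂ s₃ s₄ X).card : ℝ) ≤ C₂ * (T.card : ℝ) := by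
        exact_mod_cast (card_le_card hsub).trans hp
      have c2 : (T.card : ℝ) ≤ ((ball t c X : Finset (Qd t c)).card : ℝ) := by
        exact_mod_cast card_le_card hTb
      have c3 : C₀ * Real.sqrt X ≤ C₀ * X := by gcongr
      have c4 : (T.card : ℝ) ≤ (K + C₀) * X := by linarith
      have c5 : (C₂ : ℝ) * (T.card : ℝ) ≤ C₂ * ((K + C₀) * X) := by gcongr
      have c6 : 0 ≤ (4 * ((C₂ : ℝ) * C₁) + 1) * X := by positivity
      calc ((FF t c s₁ s₂ s₃ s₄ X).card : ℝ) ≤ C₂ * ((K + C₀) * X) := c1.trans c5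
        _ ≤ C₂ * ((K + C₀) * X) + (4 * ((C₂ : ℝ) * C₁) + 1) * X := by linarith
        _ = _ := by ring
  · intro δ hδ hδ1
    obtain ⟨Y₁, hY₁⟩ := hthin s₁ h1 (by linarith) δ hδ hδ1
    obtain ⟨Y₂, hY₂⟩ := hthin s₂ (h1.trans h12) h2 δ hδ hδ1
    obtain ⟨Y₃, hY₃⟩ := hthin s₃ h3 (by linarith) δ hδ hδ1
    obtain ⟨Y₄, hY₄⟩ := hthin s₄ (h3.trans h34) h4 δ hδ hδ1
    refine ⟨max 1 (max (max Y₁ Y₂) (max Y₃ Y₄)), ?_⟩
    intro X X' hX hXX hX'
    have hX1 : 1 ≤ X := (le_max_left _ _).trans hX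
    have hXm : max (max Y₁ Y₂) (max Y₃ Y₄) ≤ X := (le_max_right _ _).trans hX
    have y1 : Y₁ ≤ X := ((le_max_left _ _).trans (le_max_left _ _)).trans hXm
    have y2 : Y₂ ≤ X := ((le_max_right _ _).trans (le_max_left _ _)).trans hXm
    have y3 : Y₃ ≤ X := ((le_max_left _ _).trans (le_max_right _ _)).trans hXm
    have y4 : Y₄ ≤ X := ((le_max_right _ _).trans (le_max_right _ _)).trans hXm
    have t1 := hY₁ X X' y1 hXX hX'
    have t2 := hY₂ X X' y2 hXX hX'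
    have t3 := hY₃ X X' y3 hXX hX'
    have t4 := hY₄ X X' y4 hXX hX'
    have hX0 : 0 < X := by linarith
    have hX'0 : 0 < X' := by linarith
    have h2X : X' ≤ 2 * X :=
      hX'.trans (mul_le_mul_of_nonneg_right (by linarith only [hδ1]) hX0.le)
    classical
    have key : ∀ (σ : ℝ), s ≤ σ → ∀ z ∈ thin t c (σ * X) (σ * X'), prim z ∧ s * X < (nm z : ℝ) := by
      intro σ hσ z hz
      rw [mem_thin hD] at hz
      exact ⟨hz.1.1, lt_of_le_of_lt (by gcongr) hz.2⟩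
    have p1 := (hpair X hX1 (thin t c (s₁ * X) (s₁ * X')) (key s₁ hs1)).1
    have p2 := (hpair X hX1 (thin t c (s₂ * X) (s₂ * X')) (key s₂ hs2)).1
    have p3 := (hpair X hX1 (thin t c (s₃ * X) (s₃ * X')) (key s₃ hs3)).2
    have p4 := (hpair X hX1 (thin t c (s₄ * X) (s₄ * X')) (key s₄ hs4)).2
    have i1 : s₁ * X ≤ s₁ * X' := by gcongr
    have i2 : s₂ * X ≤ s₂ * X' := mul_le_mul_of_nonneg_left hXX (by linarith)
    have i3 : s₃ * X ≤ s₃ * X' := by gcongr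
    have i4 : s₄ * X ≤ s₄ * X' := mul_le_mul_of_nonneg_left hXX (by linarith)
    have j2 : s₂ * X ≤ X := mul_le_of_le_one_left hX0.le h2
    have j4 : s₄ * X ≤ X := mul_le_of_le_one_left hX0.le h4
    have hsubA : FF t c s₁ s₂ s₃ s₄ X' \ FF t c s₁ s₂ s₃ s₄ X ⊆
        P1 (thin t c (s₂ * X) (s₂ * X')) X ∪ P2 (thin t c (s₄ * X) (s₄ * X')) X := by
      intro e he
      rw [mem_sdiff, mem_FF hD, mem_FF hD] at he
      obtain ⟨⟨⟨⟨⟨a1, a2⟩, a3, a4⟩, a5⟩, a6, a7, a8, a9, a10⟩, hn⟩ := he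
      have b1 : 1 ≤ nm e.1 := one_le_nm (by positivity) a7
      have b2 : 1 ≤ nm e.2 := one_le_nm (by positivity) a9
      rw [mem_union]
      unfold P1 P2
      rw [mem_filter, mem_product, mem_ball hD, mem_thin hD, mem_filter, mem_product, mem_ball hD,
        mem_thin hD]
      by_contra hc
      push Not at hc
      apply hn
      have k1 : (nm e.1 : ℝ) ≤ s₂ * X := by
        by_contra hk
        push Not at hk
        exact hc.1 ⟨⟨⟨a1, a8⟩, hk⟩, b2, by linarith⟩ a5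
      have k2 : (nm e.2 : ℝ) ≤ s₄ * X := by
        by_contra hk
        push Not at hk
        exact hc.2 ⟨⟨b1, by linarith⟩, ⟨a3, a10⟩, hk⟩ a5
      exact ⟨⟨⟨⟨a1, k1.trans j2⟩, a3, k2.trans j4⟩, a5⟩, a6, i1.trans_lt a7, k1, i3.trans_lt a9, k2⟩
    have hsubB : FF t c s₁ s₂ s₃ s₄ X \ FF t c s₁ s₂ s₃ s₄ X' ⊆
        P1 (thin t c (s₁ * X) (s₁ * X')) X ∪ P2 (thin t c (s₃ * X) (s₃ * X')) X := by
      intro e he
      rw [mem_sdiff, mem_FF hD, mem_FF hD] at he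
      obtain ⟨⟨⟨⟨⟨a1, a2⟩, a3, a4⟩, a5⟩, a6, a7, a8, a9, a10⟩, hn⟩ := he
      have b1 : 1 ≤ nm e.1 := one_le_nm (by positivity) a7
      have b2 : 1 ≤ nm e.2 := one_le_nm (by positivity) a9
      rw [mem_union]
      unfold P1 P2
      rw [mem_filter, mem_product, mem_ball hD, mem_thin hD, mem_filter, mem_product, mem_ball hD,
        mem_thin hD]
      by_contra hc
      push Not at hc
      apply hn
      have k1 : s₁ * X' < (nm e.1 : ℝ) := by
        by_contra hk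
        push Not at hk
        exact hc.1 ⟨⟨⟨a1, hk⟩, a7⟩, b2, by linarith⟩ a5
      have k2 : s₃ * X' < (nm e.2 : ℝ) := by
        by_contra hk
        push Not at hk
        exact hc.2 ⟨⟨b1, by linarith⟩, ⟨a3, hk⟩, a9⟩ a5
      exact ⟨⟨⟨⟨a1, a2.trans hXX⟩, a3, a4.trans hXX⟩, a5⟩, a6, k1, a8.trans i2, k2, a10.trans i4⟩
    have cA : ((FF t c s₁ s₂ s₃ s₄ X' \ FF t c s₁ s₂ s₃ s₄ X).card : ℝ) ≤
        C₂ * ((thin t c (s₂ * X) (s₂ * X')).card : ℝ) + C₂ * ((thin t c (s₄ * X) (s₄ * X')).card : ℝ) := by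
      exact_mod_cast ((card_le_card hsubA).trans (card_union_le _ _)).trans (add_le_add p2 p4)
    have cB : ((FF t c s₁ s₂ s₃ s₄ X \ FF t c s₁ s₂ s₃ s₄ X').card : ℝ) ≤
        C₂ * ((thin t c (s₁ * X) (s₁ * X')).card : ℝ) + C₂ * ((thin t c (s₃ * X) (s₃ * X')).card : ℝ) := by
      exact_mod_cast ((card_le_card hsubB).trans (card_union_le _ _)).trans (add_le_add p1 p3)
    have u1 : (C₂ : ℝ) * ((thin t c (s₁ * X) (s₁ * X')).card : ℝ) ≤ C₂ * (C₁ * δ * X) := by gcongr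
    have u2 : (C₂ : ℝ) * ((thin t c (s₂ * X) (s₂ * X')).card : ℝ) ≤ C₂ * (C₁ * δ * X) := by gcongr
    have u3 : (C₂ : ℝ) * ((thin t c (s₃ * X) (s₃ * X')).card : ℝ) ≤ C₂ * (C₁ * δ * X) := by gcongr
    have u4 : (C₂ : ℝ) * ((thin t c (s₄ * X) (s₄ * X')).card : ℝ) ≤ C₂ * (C₁ * δ * X) := by gcongr
    rw [AG_eq, AG_eq, ← sum_sdiff_sub_sum_sdiff]
    refine (norm_sub_le _ _).trans ?_
    have v1 := nsl hg (FF t c s₁ s₂ s₃ s₄ X' \ FF t c s₁ s₂ s₃ s₄ X)
    have v2 := nsl hg (FF t c s₁ s₂ s₃ s₄ X \ FF t c s₁ s₂ s₃ s₄ X')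
    have c6 : 0 ≤ ((C₂ : ℝ) * (K + C₀) + 1) * (δ * X) := by positivity
    calc _ ≤ 4 * (C₂ * (C₁ * δ * X)) := by linarith
      _ ≤ 4 * (C₂ * (C₁ * δ * X)) + ((C₂ : ℝ) * (K + C₀) + 1) * (δ * X) := by linarith
      _ = _ := by ring

end Pool.Agent.W632.EG
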